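import Pool.Agent.Lib.MP_133e92_pr.Final

open MeasureTheory ProbabilityTheory
open scoped ENNReal

namespace Pool.Agent.Results.MP_133e92_pr.Threshold

open Pool.Agent.Lib.MP_133e92_pr

/-- The critical exponent is `1` for all parameters, and the walk is recurrent at the critical
exponent. -/
theorem result (N : ℕ) (hN : 2 ≤ N) (C0 C1 C2 α : ℝ) (h0 : 0 ≤ C0) (h1 : 0 ≤ C1)
    (h2 : 0 < C2) (hα : 0 < α)
    {Ω : Type*} [MeasurableSpace Ω] (P : Measure Ω) [IsProbabilityMeasure P]
    (G : Ω → SimpleGraph (HGroup N))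
    (hmeas : ∀ x y, MeasurableSet {ω | (G ω).Adj x y})
    (hprob : ∀ x y, x ≠ y →
      P {ω | (G ω).Adj x y} = ENNReal.ofReal (connProb N C0 C1 C2 α (hdist x y)))
    (hind : iIndepSet (fun e : Sym2 (HGroup N) => {ω | e ∈ (G ω).edgeSet}) P) :
    ∀ᵐ ω ∂P, (∀ x, ((G ω).neighborSet x).Finite) ∧
      ∀ x, {y | (G ω).Reachable x y}.Infinite →
        (Recurrent (G ω) x ↔ α ≤ 1) ∧ (Transient (G ω) x ↔ 1 < α) := by
  haveI : NeZero N := ⟨by omega⟩
  have hKpos : 0 < C0 + C1 / α + C2 := by positivity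
  have hKq : ∀ k : ℕ, 1 ≤ k → connProb N C0 C1 C2 α k
      ≤ (C0 + C1 / α + C2) * (k : ℝ) ^ α / (N : ℝ) ^ (2 * k) :=
    fun k hk => connProb_le h0 h1 hα hk
  obtain ⟨κ, hκ, hκq⟩ := exists_connProb_ge (α := α) hN h0 h1 h2
  have hfin : ∀ᵐ ω ∂P, ∀ x, ((G ω).neighborSet x).Finite := by
    apply ae_locally_finite P G (connProb N C0 C1 C2 α)
    · intro x y hxy; exact (hprob x y hxy).le
    · exact pow_mul_geom_tsum_ne_top hN _ (C0 + C1 / α + C2) hKpos.le α hKq
  rcases le_or_gt α 1 with hα1 | hα1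
  · have hrec := recurrence_main P G hN (connProb N C0 C1 C2 α) (C0 + C1 + C2) (by positivity)
      (fun k hk => connProb_le_of_le_one h0 h1 h2.le hα1 hk) hmeas
      (fun x y hxy => (hprob x y hxy).le) hfin
    filter_upwards [hfin, hrec] with ω hf hr
    refine ⟨hf, fun x hx => ?_⟩
    have hR : Recurrent (G ω) x := by
      apply hr x
      by_contra hemp
      rw [Set.not_nonempty_iff_eq_empty] at hemp
      apply hx
      apply (Set.finite_singleton x).subset
      intro y hy
      obtain ⟨w⟩ := hy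
      cases w with
      | nil => rfl
      | cons h _ =>
        exfalso
        have : _ ∈ (G ω).neighborSet x := h
        rw [hemp] at this
        exact this
    exact ⟨⟨fun _ => hα1, fun _ => hR⟩, ⟨fun h => absurd h hR, fun h => absurd hα1 (not_le.2 h)⟩⟩
  · have htr := transience_main (μ := P) (G := G) hN hKpos hκ hα1
      (connProb_nonneg h0 h1 h2.le) connProb_le_one hKq hκq hmeas hprob hind hfin
    filter_upwards [hfin, htr] with ω hf ht
    refine ⟨hf, fun x hx => ?_⟩
    have hT : Transient (G ω) x := ht x hx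
    exact ⟨⟨fun h => absurd hT h, fun h => absurd hα1 (not_lt.2 h)⟩, ⟨fun _ => hα1, fun _ => hT⟩⟩

end Pool.Agent.Results.MP_133e92_pr.Threshold
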